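import Pool.Agent.Y208.PT.Planes

/-!
# Lines of maximal type in linear subspaces of codimension two

Let `E` be a rank two vector bundle on `P^n`, let `P` be a point of a linear subspace `Λ` of
(projective) dimension `m ≥ 2`, and let `q` be an integer such that `E|_L ≅ O(a) ⊕ O(b)` with
`a, b ≤ q` for every line `L` with `P ∈ L ⊆ Λ`.  Suppose that every linear subspace `M` with
`P ∈ M ⊆ Λ` of dimension at least `m - 2` contains a line through `P` on which `O(q)` is
a summand of `E`.  Then `E` splits.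
-/

set_option autoImplicit false

open H960VB

namespace Pool.Agent.Results.MP_b01859_ag.CodimTwo

theorem result {n : ℕ} (E : Bundle2 n)
    -- a point `P` of a linear subspace `Λ` of projective dimension at least two
    (Λ : Submodule ℂ (Fin (n + 1) → ℂ)) (hΛ : 3 ≤ Module.finrank ℂ Λ)
    (P : Fin (n + 1) → ℂ) (hPΛ : P ∈ Λ) (hP : P ≠ 0)
    -- `q` bounds the splitting types of the lines through `P` in `Λ`
    (q : ℤ) (hmax : ∀ Q ∈ Λ, LinearIndependent ℂ ![P, Q] →
      ∀ a b : ℤ, E.SplitsOn P Q a b → a ≤ q ∧ b ≤ q)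
    -- every linear subspace of codimension at most two in `Λ` contains a line of maximal type
    (hM : ∀ M ≤ Λ, P ∈ M → Module.finrank ℂ Λ ≤ Module.finrank ℂ M + 2 →
      ∃ Q ∈ M, LinearIndependent ℂ ![P, Q] ∧ ∃ b : ℤ, E.SplitsOn P Q q b) : E.Splits := by
  by_contra hE
  obtain ⟨M, hMΛ, hPM, hMf, h⟩ := Y208PT.planes E hE Λ hΛ P hPΛ hP q hmax
  obtain ⟨Q, hQ, hPQ, b, hb⟩ := hM M hMΛ hPM hMf
  exact absurd (h Q hQ hPQ q b hb).1 (lt_irrefl q)

end Pool.Agent.Results.MP_b01859_ag.CodimTwo
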