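import Pool.Agent.Y208.PT.Sub

/-!
# Infinitely many lines of maximal type with one direction force a splitting

Let `E` be a rank two vector bundle on `P^n`, let `P` be a point of a linear subspace `Λ` of
(projective) dimension at least two, and let `q` be an integer such that `E|_L ≅ O(a) ⊕ O(b)` with
`a, b ≤ q` for every line `L` with `P ∈ L ⊆ Λ`.  Suppose that there are infinitely many lines
`L` with `P ∈ L ⊆ Λ` such that `E|_L(-q)` has a section whose value at `P` is a fixed nonzero
vector `e` of the fibre `E(P)`.  Then `E` splits.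
-/

set_option autoImplicit false

open MvPolynomial H960VB

namespace Pool.Agent.Results.MP_b01859_ag.SameDirection

/-- `g` is a section of `E(-q)` on the line through `[P]` and `[Q]`, which is parametrised by
`z ↦ z 0 • P + z 1 • Q`. -/
def LineSection {n : ℕ} (E : Bundle2 n) (P Q : Fin (n + 1) → ℂ) (q : ℤ)
    (g : Fin E.a → MvPolynomial (Fin 2) ℂ) : Prop :=
  (∀ i, HomZ (g i) (E.β i - q)) ∧
    ∀ z : Fin 2 → ℂ, z ≠ 0 → evv g z ∈ E.fib (z 0 • P + z 1 • Q)

theorem result {n : ℕ} (E : Bundle2 n)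
    -- a point `P` of a linear subspace `Λ` of projective dimension at least two
    (Λ : Submodule ℂ (Fin (n + 1) → ℂ)) (hΛ : 3 ≤ Module.finrank ℂ Λ)
    (P : Fin (n + 1) → ℂ) (hPΛ : P ∈ Λ) (hP : P ≠ 0)
    -- `q` bounds the splitting types of the lines through `P` in `Λ`
    (q : ℤ) (hmax : ∀ Q ∈ Λ, LinearIndependent ℂ ![P, Q] →
      ∀ a b : ℤ, E.SplitsOn P Q a b → a ≤ q ∧ b ≤ q)
    -- infinitely many lines through `P` in `Λ`
    (Q : ℕ → Fin (n + 1) → ℂ) (hQΛ : ∀ k, Q k ∈ Λ)
    (hQ : ∀ i j, i ≠ j → LinearIndependent ℂ ![P, Q i, Q j])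
    -- sections of `E(-q)` on these lines with one and the same nonzero value at `P`
    (g : ℕ → Fin E.a → MvPolynomial (Fin 2) ℂ) (hg : ∀ k, LineSection E P (Q k) q (g k))
    (e : Fin E.a → ℂ) (he : e ≠ 0) (hge : ∀ k, evv (g k) ![1, 0] = e) : E.Splits :=
  Y208PT.pt_subspace E Λ hΛ P hPΛ hP q hmax Q hQΛ hQ g hg e he hge

end Pool.Agent.Results.MP_b01859_ag.SameDirection
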