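import Pool.Agent.Y208.PT.Secant

/-!
# Multisecant lines through every point, in every linear subspace

Let `E` be a rank two vector bundle on `P^n` which does not split, with first Chern class `c₁`,
let `s` be a section of `E(r)` with zero scheme `Y`, let `P` be a point outside `Y` and let `Λ` be
a linear subspace of dimension `m` through `P`.  If `m ≥ 2` and `c₁ + 2 r ≤ m - 2`, then some line
`L` with `P ∈ L ⊆ Λ` meets `Y` in a scheme of length at least `m - 1`.
-/

set_option autoImplicit false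

open MvPolynomial H960VB

namespace Pool.Agent.Results.MP_b01859_ag.SecantLines

/-- The zero scheme of `s` meets the line through `[P]` and `[Q]` in a scheme of length at least
`N`: the restriction of `s` to the line, parametrised by `z ↦ z 0 • P + z 1 • Q`, is
divisible by a binary form `f ≠ 0` of degree at least `N`. -/
def Secant {n a : ℕ} (s : Fin a → MvPolynomial (Fin (n + 1)) ℂ) (P Q : Fin (n + 1) → ℂ)
    (N : ℕ) : Prop :=
  ∃ (k : ℕ) (f : MvPolynomial (Fin 2) ℂ) (h : Fin a → MvPolynomial (Fin 2) ℂ),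
    N ≤ k ∧ f.IsHomogeneous k ∧ f ≠ 0 ∧
    ∀ z : Fin 2 → ℂ, evv s (z 0 • P + z 1 • Q) = eval z f • evv h z

theorem result {n : ℕ} (hn : 2 ≤ n) (E : Bundle2 n) (hE : ¬ E.Splits) :
    -- `c₁` is the first Chern class of `E`: all lines have a type `(a, b)`, and `a + b = c₁`
    ∃ c₁ : ℤ, (∀ A B : Fin (n + 1) → ℂ, LinearIndependent ℂ ![A, B] →
      (∃ a b : ℤ, E.SplitsOn A B a b) ∧ ∀ a b : ℤ, E.SplitsOn A B a b → a + b = c₁) ∧
      -- a section of `E(r)` and a point outside its zero scheme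
      ∀ (r : ℤ) (s : Fin E.a → MvPolynomial (Fin (n + 1)) ℂ), E.IsSection r s →
        ∀ P : Fin (n + 1) → ℂ, P ≠ 0 → evv s P ≠ 0 →
          -- a linear subspace of projective dimension `m` through the point
          ∀ (m : ℕ) (Λ : Submodule ℂ (Fin (n + 1) → ℂ)), P ∈ Λ →
            Module.finrank ℂ Λ = m + 1 → 2 ≤ m → c₁ + 2 * r ≤ (m : ℤ) - 2 →
              ∃ Q ∈ Λ, LinearIndependent ℂ ![P, Q] ∧ Secant s P Q (m - 1) := by
  obtain ⟨c₁, hc⟩ := Y208PT.exists_chern (by omega : 1 ≤ n) E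
  refine ⟨c₁, fun A B hAB => ⟨Pool.Agent.H106R3.VB.splitsOn_exists E hAB, hc A B hAB⟩, ?_⟩
  intro r s hs P hP hsP m Λ hPΛ hΛ hm hcm
  obtain ⟨Q, hQ, hPQ, k, f, h, hk, hf, hf0, hz⟩ := Y208PT.secant E hE c₁ hc r s hs P hP hsP m hm
    (by omega) Λ hPΛ hΛ
  exact ⟨Q, hQ, hPQ, k, f, h, by omega, hf, hf0, hz⟩

end Pool.Agent.Results.MP_b01859_ag.SecantLines
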