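import Pool.Agent.Y208.PT.Gap

/-!
# Two independent sections of low total degree

Let `E` be a rank two vector bundle on `P^n`, `n ≥ 2`, which does not split, with first Chern
class `c₁`.  If `s` is a section of `E(r)` and `u` is a section of `E(t)` and if `s` and `u` are
linearly independent at some point, then `c₁ + r + t ≥ n - 1`.
-/

set_option autoImplicit false

open MvPolynomial H960VB

namespace Pool.Agent.Results.MP_b01859_ag.WedgeDegree

theorem result {n : ℕ} (hn : 2 ≤ n) (E : Bundle2 n) (hE : ¬ E.Splits) :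
    -- `c₁` is the first Chern class of `E`: all lines have a type `(a, b)`, and `a + b = c₁`
    ∃ c₁ : ℤ, (∀ A B : Fin (n + 1) → ℂ, LinearIndependent ℂ ![A, B] →
      (∃ a b : ℤ, E.SplitsOn A B a b) ∧ ∀ a b : ℤ, E.SplitsOn A B a b → a + b = c₁) ∧
      ∀ (r t : ℤ) (s u : Fin E.a → MvPolynomial (Fin (n + 1)) ℂ), E.IsSection r s →
        E.IsSection t u → (∃ x : Fin (n + 1) → ℂ, x ≠ 0 ∧
          LinearIndependent ℂ ![evv s x, evv u x]) → (n : ℤ) - 1 ≤ c₁ + r + t := by
  obtain ⟨c₁, hc⟩ := Y208PT.exists_chern (by omega : 1 ≤ n) E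
  refine ⟨c₁, fun A B hAB => ⟨Pool.Agent.H106R3.VB.splitsOn_exists E hAB, hc A B hAB⟩, ?_⟩
  rintro r t s u hs hu ⟨x, hx, hsu⟩
  exact Y208PT.wedge_deg hn E hE c₁ hc r t s u hs hu x hx hsu

end Pool.Agent.Results.MP_b01859_ag.WedgeDegree
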